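import Mathlib

/-!
EZ/DIF: iterated differences of binomial coefficients near the balance point (core, only Mathlib).
-/

set_option autoImplicit false

open Finset

namespace Pool.Agent.N704.EZ

/-- forward difference -/
def D (f : ℕ → ℝ) : ℕ → ℝ := fun i => f (i + 1) - f i

theorem D_eq (f : ℕ → ℝ) : D f = fwdDiff 1 f := rfl

/-- the shift -/
def E (f : ℕ → ℝ) : ℕ → ℝ := fun i => f (i + 1)

theorem D_add (f g : ℕ → ℝ) : D (fun i => f i + g i) = fun i => D f i + D g i := by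
  funext i
  simp only [D]
  ring

theorem iter_add : ∀ (s : ℕ) (f g : ℕ → ℝ), D^[s] (fun i => f i + g i) = fun i => D^[s] f i + D^[s] g i
  | 0, f, g => rfl
  | s + 1, f, g => by
    rw [Function.iterate_succ_apply, D_add, iter_add s]
    rfl

theorem D_mul (f g : ℕ → ℝ) : D (fun i => f i * g i) = fun i => D f i * E g i + f i * D g i := by
  funext i
  simp only [D, E]
  ring

theorem iter_E : ∀ (s : ℕ) (f : ℕ → ℝ) (i : ℕ), D^[s] (E f) i = D^[s] f (i + 1)
  | 0, f, i => rfl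
  | s + 1, f, i => by
    rw [Function.iterate_succ_apply, Function.iterate_succ_apply, ← iter_E s (D f) i]
    rfl

theorem iter_smul (A : ℝ) : ∀ (s : ℕ) (f : ℕ → ℝ), D^[s] (fun i => A * f i) = fun i => A * D^[s] f i
  | 0, f => rfl
  | s + 1, f => by
    rw [Function.iterate_succ_apply, Function.iterate_succ_apply]
    have h : D (fun i => A * f i) = fun i => A * D f i := by
      funext i
      simp only [D]
      ring
    rw [h, iter_smul A s]

/-- product of two sequences -/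
theorem prod_bound (ε : ℝ) (hε : 0 < ε) : ∀ (s R : ℕ) (f g : ℕ → ℝ) (a b : ℕ) (K L : ℝ), 0 ≤ K → 0 ≤ L →
    (∀ s' i, s' ≤ s → s' + i ≤ R → |D^[s'] f i| ≤ K * ε ^ (s' + a)) →
    (∀ s' i, s' ≤ s → s' + i ≤ R → |D^[s'] g i| ≤ L * ε ^ (s' + b)) →
    ∀ i, s + i ≤ R → |D^[s] (fun i => f i * g i) i| ≤ 2 ^ s * K * L * ε ^ (s + a + b)
  | 0, R, f, g, a, b, K, L, hK, hL, hf, hg, i, hi => by
    have h1 := hf 0 i le_rfl (by omega)
    have h2 := hg 0 i le_rfl (by omega)
    simp only [Function.iterate_zero, id_eq, zero_add] at h1 h2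
    simp only [Function.iterate_zero, id_eq, zero_add, pow_zero, one_mul]
    rw [abs_mul]
    calc |f i| * |g i| ≤ (K * ε ^ a) * (L * ε ^ b) :=
          mul_le_mul h1 h2 (abs_nonneg _) (by positivity)
      _ = K * L * ε ^ (a + b) := by rw [pow_add]; ring
  | s + 1, 0, f, g, a, b, K, L, hK, hL, hf, hg, i, hi => by omega
  | s + 1, R + 1, f, g, a, b, K, L, hK, hL, hf, hg, i, hi => by
    rw [Function.iterate_succ_apply, D_mul, iter_add]
    have h1 : |D^[s] (fun i => D f i * E g i) i| ≤ 2 ^ s * K * L * ε ^ (s + (a + 1) + b) := by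
      refine prod_bound ε hε s R (D f) (E g) (a + 1) b K L hK hL ?_ ?_ i (by omega)
      · intro s' j hs' hj
        have := hf (s' + 1) j (by omega) (by omega)
        rw [Function.iterate_succ_apply] at this
        calc _ ≤ K * ε ^ (s' + 1 + a) := this
          _ = K * ε ^ (s' + (a + 1)) := by ring_nf
      · intro s' j hs' hj
        rw [iter_E]
        exact hg s' (j + 1) (by omega) (by omega)
    have h2 : |D^[s] (fun i => f i * D g i) i| ≤ 2 ^ s * K * L * ε ^ (s + a + (b + 1)) := by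
      refine prod_bound ε hε s R f (D g) a (b + 1) K L hK hL ?_ ?_ i (by omega)
      · intro s' j hs' hj
        exact hf s' j (by omega) (by omega)
      · intro s' j hs' hj
        have := hg (s' + 1) j (by omega) (by omega)
        rw [Function.iterate_succ_apply] at this
        calc _ ≤ L * ε ^ (s' + 1 + b) := this
          _ = L * ε ^ (s' + (b + 1)) := by ring_nf
    calc |D^[s] (fun i => D f i * E g i) i + D^[s] (fun i => f i * D g i) i|
        ≤ |D^[s] (fun i => D f i * E g i) i| + |D^[s] (fun i => f i * D g i) i| := abs_add_le _ _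
      _ ≤ 2 ^ s * K * L * ε ^ (s + (a + 1) + b) + 2 ^ s * K * L * ε ^ (s + a + (b + 1)) := add_le_add h1 h2
      _ = 2 ^ (s + 1) * K * L * ε ^ (s + 1 + a + b) := by ring

/-- reciprocals -/
noncomputable def U (x : ℝ) (j : ℕ) : ℕ → ℝ := fun i => ∏ l ∈ range (j + 1), (x + i + l)⁻¹

theorem D_U (x : ℝ) (hx : 0 < x) (j : ℕ) : D (U x j) = fun i => -((j : ℝ) + 1) * U x (j + 1) i := by
  funext i
  simp only [D, U]
  have e1 : ∏ l ∈ range (j + 1), (x + ((i + 1 : ℕ) : ℝ) + (l : ℝ))⁻¹ =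
      (∏ l ∈ range j, (x + i + ((l + 1 : ℕ) : ℝ))⁻¹) * (x + i + (j + 1))⁻¹ := by
    rw [prod_range_succ]
    congr 1
    · refine prod_congr rfl fun l _ => ?_
      congr 1
      push_cast
      ring
    · congr 1
      push_cast
      ring
  have e2 : ∏ l ∈ range (j + 1), (x + (i : ℝ) + (l : ℝ))⁻¹ =
      (∏ l ∈ range j, (x + i + ((l + 1 : ℕ) : ℝ))⁻¹) * (x + i)⁻¹ := by
    rw [prod_range_succ']
    congr 1
    push_cast
    ring_nf
  have e3 : ∏ l ∈ range (j + 1 + 1), (x + (i : ℝ) + (l : ℝ))⁻¹ =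
      (∏ l ∈ range j, (x + i + ((l + 1 : ℕ) : ℝ))⁻¹) * (x + i + (j + 1))⁻¹ * (x + i)⁻¹ := by
    rw [prod_range_succ', prod_range_succ]
    push_cast
    ring_nf
  rw [e1, e2, e3]
  have h1 : x + (i : ℝ) ≠ 0 := by positivity
  have h2 : x + (i : ℝ) + (j + 1) ≠ 0 := by positivity
  field_simp
  ring

theorem iter_U (x : ℝ) (hx : 0 < x) : ∀ (j : ℕ), D^[j] (U x 0) = fun i => (-1) ^ j * (j.factorial : ℝ) * U x j i
  | 0 => by funext i; simp
  | j + 1 => by
    rw [Function.iterate_succ_apply', iter_U x hx j]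
    have h : D (fun i => (-1 : ℝ) ^ j * (j.factorial : ℝ) * U x j i) =
        fun i => (-1 : ℝ) ^ j * (j.factorial : ℝ) * D (U x j) i := by
      funext i
      simp only [D]
      ring
    rw [h, D_U x hx]
    funext i
    rw [Nat.factorial_succ]
    push_cast
    ring

theorem U_le (x : ℝ) (hx : 0 < x) (j i : ℕ) : 0 ≤ U x j i ∧ U x j i ≤ (x⁻¹) ^ (j + 1) := by
  constructor
  · exact prod_nonneg fun l _ => by positivity
  · calc U x j i ≤ ∏ _l ∈ range (j + 1), x⁻¹ := by
          refine prod_le_prod (fun l _ => by positivity) fun l _ => ?_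
          apply inv_anti₀ hx
          have : (0 : ℝ) ≤ i := Nat.cast_nonneg i
          have : (0 : ℝ) ≤ l := Nat.cast_nonneg l
          linarith
      _ = (x⁻¹) ^ (j + 1) := by simp

/-- the constants -/
noncomputable def cc (R : ℕ) : ℕ → ℝ
  | 0 => 3 ^ R
  | s + 1 => (1 + 2 ^ s * (3 * R.factorial + 3 * R + 1)) * cc R s

theorem cc_pos (R : ℕ) : ∀ s, 0 < cc R s
  | 0 => by unfold cc; positivity
  | s + 1 => by
    have := cc_pos R s
    unfold cc
    positivity

theorem core (r S k : ℕ) (m ε : ℝ) (hm : 1 ≤ m) (hε : 0 < ε) (hε1 : ε ≤ 1) (hk : 1 ≤ ε ^ 2 * (k : ℝ))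
    (hb : |((S : ℝ) - k) / ((k : ℝ) + 1) - m| ≤ ε * m) :
    ∀ s, s ≤ r → ∀ s' i, s' ≤ s → s' + i ≤ r →
      |D^[s'] (fun i => (S.choose (k + i) : ℝ) / m ^ i) i| ≤ cc r s * (S.choose k : ℝ) * ε ^ s' := by
  have hm0 : (0 : ℝ) < m := by linarith
  have hk0 : (0 : ℝ) < k := by
    rcases Nat.eq_zero_or_pos k with h | h
    · subst h
      norm_num at hk
    · exact_mod_cast h
  have hx : (0 : ℝ) < (k : ℝ) + 1 := by linarith
  obtain ⟨hb1, hb2⟩ := abs_le.mp hb
  -- the sequence ξ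
  set ξ : ℕ → ℝ := fun i => ((S : ℝ) + 1) / m * U ((k : ℝ) + 1) 0 i + (-(1 / m + 1)) with hξ
  set h : ℕ → ℝ := fun i => (S.choose (k + i) : ℝ) / m ^ i with hh
  have hS3 : ((S : ℝ) + 1) / m ≤ 3 * ((k : ℝ) + 1) := by
    have h1 : ((S : ℝ) - k) / ((k : ℝ) + 1) ≤ 2 * m := by nlinarith
    rw [div_le_iff₀ hx] at h1
    rw [div_le_iff₀ hm0]
    nlinarith
  have hinvk : ((k : ℝ) + 1)⁻¹ ≤ ε ^ 2 := by
    rw [inv_le_comm₀ hx (by positivity)]
    have : (ε ^ 2)⁻¹ ≤ k := by
      rw [inv_le_iff_one_le_mul₀ (by positivity)]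
      linarith
    linarith
  have hU0 : ∀ i : ℕ, U ((k : ℝ) + 1) 0 i = ((k : ℝ) + 1 + i)⁻¹ := by
    intro i
    simp [U]
  have hDh : D h = fun i => ξ i * h i := by
    funext i
    simp only [D, hξ, hh, hU0]
    have h1 : (S.choose (k + (i + 1)) : ℝ) * ((k : ℝ) + i + 1) = (S.choose (k + i) : ℝ) * ((S : ℝ) - (k + i)) := by
      have h2 := Nat.choose_succ_right_eq S (k + i)
      by_cases h3 : k + i ≤ S
      · have h4 : (((S.choose (k + i + 1) * (k + i + 1) : ℕ)) : ℝ) = ((S.choose (k + i) * (S - (k + i)) : ℕ) : ℝ) := by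
          rw [h2]
        push_cast [Nat.cast_sub h3] at h4
        rw [← add_assoc]
        linarith
      · rw [Nat.choose_eq_zero_of_lt (by omega : S < k + (i + 1)), Nat.choose_eq_zero_of_lt (by omega : S < k + i)]
        simp
    have h5 : (k : ℝ) + 1 + i ≠ 0 := by positivity
    have h6 : m ^ i ≠ 0 := by positivity
    have h7 : (S.choose (k + (i + 1)) : ℝ) = (S.choose (k + i) : ℝ) * ((S : ℝ) - (k + i)) / ((k : ℝ) + i + 1) := by
      rw [eq_div_iff (by positivity)]
      exact h1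
    rw [h7, pow_succ]
    field_simp
    ring
  -- bounds for ξ
  have hξ0 : ∀ i : ℕ, i ≤ r → |ξ i| ≤ (3 * r + 1) * ε := by
    intro i hi
    have e0 : ξ i = (((S : ℝ) - k) / ((k : ℝ) + 1) - m) / m -
        ((S : ℝ) + 1) / m * (i / (((k : ℝ) + 1) * ((k : ℝ) + 1 + i))) := by
      simp only [hξ, hU0]
      have h5 : (k : ℝ) + 1 + i ≠ 0 := by positivity
      field_simp
      ring
    rw [e0]
    have h1 : |(((S : ℝ) - k) / ((k : ℝ) + 1) - m) / m| ≤ ε := by
      rw [abs_div, abs_of_pos hm0, div_le_iff₀ hm0]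
      exact hb
    have h2 : |((S : ℝ) + 1) / m * (i / (((k : ℝ) + 1) * ((k : ℝ) + 1 + i)))| ≤ 3 * r * ε := by
      rw [abs_of_nonneg (by positivity)]
      have h3 : (i : ℝ) / (((k : ℝ) + 1) * ((k : ℝ) + 1 + i)) ≤ r * (((k : ℝ) + 1)⁻¹ * ((k : ℝ) + 1)⁻¹) := by
        rw [div_eq_mul_inv, mul_inv]
        have hir : (i : ℝ) ≤ r := by exact_mod_cast hi
        have h4 : ((k : ℝ) + 1 + i)⁻¹ ≤ ((k : ℝ) + 1)⁻¹ := by
          apply inv_anti₀ hx
          have : (0 : ℝ) ≤ i := Nat.cast_nonneg i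
          linarith
        gcongr
      calc ((S : ℝ) + 1) / m * (i / (((k : ℝ) + 1) * ((k : ℝ) + 1 + i)))
          ≤ (3 * ((k : ℝ) + 1)) * (r * (((k : ℝ) + 1)⁻¹ * ((k : ℝ) + 1)⁻¹)) := by
            refine mul_le_mul hS3 h3 (by positivity) (by positivity)
        _ = 3 * r * ((k : ℝ) + 1)⁻¹ := by field_simp
        _ ≤ 3 * r * ε ^ 2 := by gcongr
        _ ≤ 3 * r * ε := by
            have : ε ^ 2 ≤ ε := by nlinarith
            gcongr
    calc _ ≤ |(((S : ℝ) - k) / ((k : ℝ) + 1) - m) / m| +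
          |((S : ℝ) + 1) / m * (i / (((k : ℝ) + 1) * ((k : ℝ) + 1 + i)))| := abs_sub _ _
      _ ≤ ε + 3 * r * ε := add_le_add h1 h2
      _ = (3 * r + 1) * ε := by ring
  have hξj : ∀ j i : ℕ, j + 1 ≤ r → |D^[j + 1] ξ i| ≤ 3 * r.factorial * ε ^ (j + 1 + 1) := by
    intro j i hj
    have e1 : D^[j + 1] ξ i = ((S : ℝ) + 1) / m * ((-1) ^ (j + 1) * ((j + 1).factorial : ℝ) * U ((k : ℝ) + 1) (j + 1) i) := by
      rw [hξ, iter_add, iter_smul, iter_U _ hx]
      have e2 : D^[j + 1] (fun _ : ℕ => (-(1 / m + 1) : ℝ)) = fun _ => 0 := by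
        have e3 : ∀ s : ℕ, D^[s] (fun _ : ℕ => (0 : ℝ)) = fun _ => 0 := by
          intro s
          induction s with
          | zero => rfl
          | succ s ih =>
            rw [Function.iterate_succ_apply]
            have : D (fun _ : ℕ => (0 : ℝ)) = fun _ => 0 := by funext i; simp [D]
            rw [this, ih]
        rw [Function.iterate_succ_apply]
        have : D (fun _ : ℕ => (-(1 / m + 1) : ℝ)) = fun _ => 0 := by funext i; simp [D]
        rw [this, e3]
      rw [e2]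
      simp
    rw [e1]
    obtain ⟨hU1, hU2⟩ := U_le ((k : ℝ) + 1) hx (j + 1) i
    rw [abs_mul, abs_mul, abs_mul, abs_pow, abs_neg, abs_one, one_pow, one_mul,
      abs_of_nonneg (by positivity : (0 : ℝ) ≤ ((S : ℝ) + 1) / m),
      abs_of_nonneg (by positivity : (0 : ℝ) ≤ ((j + 1).factorial : ℝ)), abs_of_nonneg hU1]
    have hfac : ((j + 1).factorial : ℝ) ≤ r.factorial := by
      exact_mod_cast Nat.factorial_le hj
    calc ((S : ℝ) + 1) / m * (((j + 1).factorial : ℝ) * U ((k : ℝ) + 1) (j + 1) i)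
        ≤ (3 * ((k : ℝ) + 1)) * ((r.factorial : ℝ) * (((k : ℝ) + 1)⁻¹) ^ (j + 1 + 1)) := by
          refine mul_le_mul hS3 ?_ (by positivity) (by positivity)
          exact mul_le_mul hfac hU2 hU1 (by positivity)
      _ = 3 * r.factorial * (((k : ℝ) + 1)⁻¹) ^ (j + 1) := by
          rw [pow_succ (((k : ℝ) + 1)⁻¹) (j + 1)]
          field_simp
      _ ≤ 3 * r.factorial * (ε ^ 2) ^ (j + 1) := by gcongr
      _ = 3 * r.factorial * ε ^ (2 * (j + 1)) := by rw [← pow_mul]
      _ ≤ 3 * r.factorial * ε ^ (j + 1 + 1) := by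
          have : ε ^ (2 * (j + 1)) ≤ ε ^ (j + 1 + 1) :=
            pow_le_pow_of_le_one hε.le hε1 (by omega)
          gcongr
  set K : ℝ := 3 * r.factorial + 3 * r + 1 with hK
  have hKpos : 0 < K := by positivity
  have hξall : ∀ s' i, s' + i ≤ r → |D^[s'] ξ i| ≤ K * ε ^ (s' + 1) := by
    intro s' i hi
    rcases s' with _ | j
    · have h1 := hξ0 i (by omega)
      simp only [Function.iterate_zero, id_eq, zero_add, pow_one]
      refine h1.trans ?_
      have h2 : (3 * (r : ℝ) + 1) ≤ K := by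
        have : (0 : ℝ) ≤ 3 * r.factorial := by positivity
        linarith
      gcongr
    · refine (hξj j i (by omega)).trans ?_
      have h2 : 3 * (r.factorial : ℝ) ≤ K := by
        have : (0 : ℝ) ≤ 3 * r + 1 := by positivity
        linarith
      gcongr
  -- bounds for h itself
  have hh0 : ∀ i, 0 ≤ h i := fun i => by simp only [hh]; positivity
  have hh1 : ∀ i, h i ≤ 3 ^ i * h 0 := by
    intro i
    induction i with
    | zero => simp
    | succ i ih =>
      have e1 : h (i + 1) = (1 + ξ i) * h i := by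
        have := congrFun hDh i
        simp only [D] at this
        linarith
      have e2 : 1 + ξ i ≤ 3 := by
        simp only [hξ, hU0]
        have h4 : ((k : ℝ) + 1 + i)⁻¹ ≤ ((k : ℝ) + 1)⁻¹ := by
          apply inv_anti₀ hx
          have : (0 : ℝ) ≤ i := Nat.cast_nonneg i
          linarith
        have h5 : ((S : ℝ) + 1) / m * ((k : ℝ) + 1 + i)⁻¹ ≤ 3 * ((k : ℝ) + 1) * ((k : ℝ) + 1)⁻¹ :=
          mul_le_mul hS3 h4 (by positivity) (by positivity)
        have h6 : 3 * ((k : ℝ) + 1) * ((k : ℝ) + 1)⁻¹ = 3 := by field_simp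
        have h7 : 0 < 1 / m := by positivity
        linarith
      rw [e1]
      calc (1 + ξ i) * h i ≤ 3 * h i := mul_le_mul_of_nonneg_right e2 (hh0 i)
        _ ≤ 3 * (3 ^ i * h 0) := by linarith
        _ = 3 ^ (i + 1) * h 0 := by ring
  have h00 : h 0 = (S.choose k : ℝ) := by simp [hh]
  have hc0 : (0 : ℝ) ≤ (S.choose k : ℝ) := by positivity
  intro s
  induction s with
  | zero =>
    intro _ s' i hs' hi
    have : s' = 0 := by omega
    subst this
    simp only [Function.iterate_zero, id_eq, pow_zero, mul_one]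
    rw [abs_of_nonneg (hh0 i), ← h00]
    refine (hh1 i).trans ?_
    unfold cc
    have : (3 : ℝ) ^ i ≤ 3 ^ r := pow_le_pow_right₀ (by norm_num) (by omega)
    have := hh0 0
    gcongr
  | succ s ih =>
    intro hs s' i hs' hi
    have ih' := ih (by omega)
    have hcc := cc_pos r s
    have hle : cc r s ≤ cc r (s + 1) := by
      rw [cc]
      have : 0 ≤ 2 ^ s * (3 * (r.factorial : ℝ) + 3 * r + 1) * cc r s := by positivity
      linarith
    rcases Nat.lt_or_ge s' (s + 1) with h1 | h1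
    · refine (ih' s' i (by omega) hi).trans ?_
      have : 0 < ε ^ s' := by positivity
      gcongr
    · have h2 : s' = s + 1 := by omega
      subst h2
      rw [Function.iterate_succ_apply, hDh]
      have h3 := prod_bound ε hε s r ξ h 1 0 K (cc r s * (S.choose k : ℝ)) hKpos.le (by positivity)
        (fun s' j _ hj => hξall s' j hj) (fun s' j hs' hj => by simpa using ih' s' j hs' hj) i (by omega)
      refine h3.trans ?_
      rw [cc]
      have h4 : ε ^ (s + 1 + 0) = ε ^ (s + 1) := by simp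
      rw [h4]
      have h5 : 0 ≤ cc r s * (S.choose k : ℝ) * ε ^ (s + 1) := by positivity
      nlinarith

theorem dif_core (r : ℕ) : ∃ C : ℝ, 0 < C ∧ ∀ (S k : ℕ) (m ε : ℝ), 1 ≤ m → 0 < ε → ε ≤ 1 → k ≤ S →
    1 ≤ ε ^ 2 * (k : ℝ) → |((S : ℝ) - k) / ((k : ℝ) + 1) - m| ≤ ε * m →
    |∑ i ∈ range (r + 1), (-1 : ℝ) ^ i * (r.choose i : ℝ) * ((S.choose (k + i) : ℝ) / m ^ i)| ≤
      C * ε ^ r * (S.choose k : ℝ) := by
  refine ⟨cc r r, cc_pos r r, fun S k m ε hm hε hε1 hkS hk hb => ?_⟩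
  have h := core r S k m ε hm hε hε1 hk hb r le_rfl r 0 le_rfl (by omega)
  have e : ∀ (f : ℕ → ℝ), |D^[r] f 0| = |∑ i ∈ range (r + 1), (-1 : ℝ) ^ i * (r.choose i : ℝ) * f i| := by
    intro f
    have h1 : D^[r] f 0 = ∑ i ∈ range (r + 1), ((-1 : ℤ) ^ (r - i) * (r.choose i : ℤ)) • f (0 + i • 1) :=
      fwdDiff_iter_eq_sum_shift (1 : ℕ) f r 0
    rw [h1]
    have h2 : ∑ i ∈ range (r + 1), ((-1 : ℤ) ^ (r - i) * (r.choose i : ℤ)) • f (0 + i • 1) =
        (-1 : ℝ) ^ r * ∑ i ∈ range (r + 1), (-1 : ℝ) ^ i * (r.choose i : ℝ) * f i := by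
      rw [mul_sum]
      refine sum_congr rfl fun i hi => ?_
      have hir : i ≤ r := by
        have := mem_range.mp hi
        omega
      rw [zsmul_eq_mul]
      push_cast
      have h3 : (-1 : ℝ) ^ (r - i) = (-1) ^ r * (-1) ^ i := by
        have h4 : (-1 : ℝ) ^ r = (-1) ^ (r - i) * (-1) ^ i := by
          rw [← pow_add]
          congr 1
          omega
        rw [h4, mul_assoc, ← mul_pow]
        norm_num
      rw [h3]
      simp
      ring
    rw [h2, abs_mul, abs_pow, abs_neg, abs_one, one_pow, one_mul]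
  rw [e] at h
  calc _ ≤ cc r r * (S.choose k : ℝ) * ε ^ r := h
    _ = cc r r * ε ^ r * (S.choose k : ℝ) := by ring

end Pool.Agent.N704.EZ
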