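import Pool.Agent.N929.EZ.Stm
import Pool.Agent.N704.EZ.DifCore

set_option autoImplicit false

namespace Pool.Agent.N704.EZ

theorem dif : Pool.Agent.N929.EZ.S_DIF := dif_core

end Pool.Agent.N704.EZ
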